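import Pool.Agent.T2h14.MS.Dual

/-!
# Murre's conjecture (B) for all Chow-Kunneth decompositions

`𝒱` is a class of smooth projective geometrically irreducible varieties over the field `k` closed
under products (for example all of them), `C` the Chow groups with rational coefficients (in the
form of their formal properties, `IsChowProj`), `H` a Weil cohomology theory (`IsWeilProj`), with the
classical fact that correspondences of degree zero acting as zero on `H^1` act as zero on
`Pic^0 ⊗ ℚ` (`PicardPairs`).

Let `X` be a variety of dimension `d` with the following two properties: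

* the homologically trivial self-correspondences of degree zero of `X` are nilpotent (`NilHom`; this
  is true, by Kimura, if the motive of `X` is finite-dimensional, for instance if `X` is dominated by
  a product of curves);
* the Lefschetz standard conjecture holds for `X` (`LefschetzStandard`).

The theorem: let `q` be **any** Chow-Kunneth decomposition of `X` and `F` the filtration attached to it.

* `F^(j + 1) CH^j(X) = 0` for all `j`, the second half of (B);
* `F^0 CH^j(X) = CH^j(X)` for `j ≤ 1` and for `j ≥ d - 2`;
* (B) holds for `X` and `q` if `d ≤ 4`;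
* (B) holds for `X` and `q` if the cohomology groups `H^i(X)`, `5 ≤ i ≤ d`, have geometric level at most
  four: `H^i(X)` is a direct summand, by algebraic correspondences, of a sum of groups
  `H^(i - 2 c)(Z)(-c)` with `i - 2 c ≤ 4` (`SummandOf`);
* in general, `F^0 CH^j(X) = CH^j(X)` if and only if `q k` acts as zero on `CH^(j')(X)` whenever
  `2 ≤ j'`, `2 j' < k < d` and `k - j' = d - j`, and, if `j ≥ 2`, `q i` acts as zero on `CH^j(X)` for
  `2 j < i ≤ d`. So (B) for `X` is equivalent to `F^0 CH^j(X) = CH^j(X)` for `2 ≤ j < d / 2`.

The filtration depends on `q`, and the theorem holds for all `q`, as in the question. The proof: if a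
correspondence acts as the identity on `H^i(X)`, then it is invertible on the motive `(X, q i)`, by
nilpotence. So this motive is a direct summand of a Tate twist of `(X, q (2 d - i))`, or of the motives
of the `Z`, and the cycles of codimension at most one on these, of negative codimension, or of
codimension greater than the dimension, are well understood. For abelian varieties and the
decomposition of Deninger-Murre this kind of argument is due to Beauville.
-/

open CategoryTheory AlgebraicGeometry

set_option autoImplicit false

universe u v w

namespace Pool.Agent.Results.MP_d6e134_ag.AllDecompositions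

open Pool.Agent.H914 Pool.Agent.W492.BB Pool.Agent.TH133 Pool.Agent.Y107 Pool.Agent.Q73.LS
  Pool.Agent.T2h14.MS

/-- Murre's conjecture (B) for all Chow-Kunneth decompositions `q` of a variety `X` which satisfies
the Lefschetz standard conjecture and nilpotence. -/
theorem result {k : Type u} [Field k] {𝒱 : VarClass k} (C : TheoryData.{u, v, 0} 𝒱 ℚ)
    [IsChowProj C] {K : Type w} [Field K] (H : WeilTheoryData.{u, v, w} C K) [IsWeilProj H]
    (hP : PicardPairs H) (X : 𝒱.Obj) (hN : NilHom H X) (D : C.A X) (hD : C.Deg 1 D)
    (hL : LefschetzStandard H X D) (q : ℕ → C.A (X.prod X)) (hq : IsCK H X q) :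
    (∀ j : ℕ, ckFil C q j (j + 1) = ⊥) ∧
    (∀ j : ℕ, j ≤ 1 ∨ X.dim ≤ j + 2 → ckFil C q j 0 = C.gr X j) ∧
    (X.dim ≤ 4 → SatisfiesB C q) ∧
    ((∀ i : ℕ, 5 ≤ i → i ≤ X.dim → SummandOf H X i fun _ c => (i : ℤ) ≤ 2 * c + 4) →
      SatisfiesB C q) ∧
    (∀ j : ℕ, ckFil C q j 0 = C.gr X j ↔
      (∀ k j' : ℕ, 2 ≤ j' → 2 * j' < k → k < X.dim → k + j = j' + X.dim → Van C q k j') ∧
      (2 ≤ j → ∀ i, 2 * j < i → i ≤ X.dim → Van C q i j)) := by
  obtain ⟨h1, h2, h3⟩ := all_B (H := H) hP hN hD hL hq
  exact ⟨h1, fun j hj => (h2 j).2 ⟨fun k j' _ _ _ _ => by omega, fun _ i _ _ => by omega⟩,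
    fun h4 => h3 fun i h5 h6 => absurd (h5.trans h6) (by omega), h3, h2⟩

end Pool.Agent.Results.MP_d6e134_ag.AllDecompositions
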