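import Mathlib
import Pool.Agent.Z15.MU.Proof

/-!
# Murre's conjecture (B) for motives of abelian varieties, weight by weight

Let `X` be a complex abelian variety (`AV`, up to isogeny) in one of the following two classes, where
`P` is the class of all simple abelian varieties `Y`, of any dimension, such that the periods of `Y`
have coordinates (with respect to a basis of the tangent space) in a subfield `k` of `ℂ` as follows:

* `k` is a number field of degree at most four, and `Y` has no complex multiplication;
* `k` is a number field of degree at most six, and `End(Y)` is of Albert type I or II;
* `k` is a number field of odd degree, or no totally real subfield `F ≠ ℚ` of `k` is fixed by all real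
  embeddings of `k` and `k` contains no imaginary quadratic field (for instance `k = ℚ(t)`), and
  moreover `dim Y` is odd, or `End(Y)` is of Albert type I or II and the relative dimension is not
  one of the numbers `2 ^ j`, `j ≥ 4`, `j ≡ 0, 1` modulo `4` and, if `k` is a number field,
  `2 j + 2 ≤ [k : ℚ]`;
* `k` is a number field of odd degree and `dim Y ≤ 7`; or no totally real subfield `F ≠ ℚ` of `k` is
  fixed by all real embeddings of `k`, `dim Y ≤ 7`, and `End(Y)` is of Albert type I or II or `k`
  contains no imaginary quadratic field (and `Y` has trivial discriminant if `dim Y = 6` and `End(Y)`
  is an imaginary quadratic field).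

(a) All simple factors of `X` are in `P` or are factors of an abelian variety `A` of dimension at most
three (for instance `X` is a power of `A`).

(b) There are finitely many CM types `T k`, divided into independent blocks, such that for each block
all CM types of the CM fields in this block are conjugate, or the total dimension of the block is at
most three, or the block consists of all CM types of a Galois CM field of degree at most six; and
each simple factor of `X` is in `P`, or is a factor of one of the abelian varieties with the CM types
`T k`, or has no complex multiplication and belongs to one of the classes in `Typ` below (of any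
dimension), where an imaginary quadratic field which acts with two different multiplicities on the
tangent space must be the field of an elliptic curve of the first kind (fourfolds with such an action
are excluded).

Let `M = (X, p)` be a direct summand of the Chow motive of `X`, for example `M = h(V)`, where `V` is a
smooth projective variety of dimension `d` which is the image of `X`, or the image of a product of
curves of positive genus such that the product of their Jacobians is `X`. Let `M = ⊕ M_m`,
`M_m = (X, P m)`, be **any** Chow–Künneth decomposition (`M_m` has the homology of `M` in degree `m`; if
`M = h(V)` then `M_m` is `h^(2 d - m)(V)`, the cycles of dimension `i` are the cycles of codimension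
`d - i`, and the Hodge number `h^(s, t)` of `M` is `h^(d - s, d - t)(V)`).

The theorem: let `h^(s, t)(M) = 0` if `s > d` or `t > d`, for example `M = h(V)` as above.
(1) There are no cycles of dimension `i` on `M_m` for `m > d + i`. (2) There are no cycles of dimension
`i` on `M_m` for all `m < 2 i` such that `h^(s, t)(M) = 0` for all `s + t = m` with `max (s, t) ≥ i + 2`.

For `M = h(V)` this is Murre's conjecture (B): (1) says that `F^(j + 1) CH^j(V) = 0` for all `j`, and (2)
implies that `F^0 CH^j(V) = CH^j(V)` for all `j`, for all Chow–Künneth decompositions, if `d ≤ 4`, if `d = 5`
and `h^(5, 0)(V) = 0`, if `d = 6` and `h^(5, 0)(V) = h^(6, 0)(V) = h^(6, 1)(V) = 0`, and in general if the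
Hodge level of `V` is at most four. In `Pool.Agent.Results.MP_d6e134_ag.HodgeLevelFour` part (2) is shown
for the classes (a), (b) without `P` and for Hodge level at most four.

The structures `ChowTheory` (`Pool.Agent.N178.BL.Defs`) and `Projectors` (`Pool.Agent.N178.MU.Defs`)
collect the known properties of the Chow groups of complex abelian varieties which are used: the
formal properties of correspondences; Kimura's theorem that homologically trivial endomorphisms of
the motive are nilpotent; the semisimplicity of the category of motives of abelian varieties modulo
homological equivalence (Jannsen, Lieberman); the algebraic classes are a system `Sys` (Lefschetz,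
Markman); the algebraicity of the isomorphisms `H^n(Y, ℚ) ≅ H_n(Y, ℚ)` given by a polarization
(Lieberman); the projectors of Deninger and Murre, and the properties of the cycles of codimension at
most one on `h^n(Y)` (Beauville, Künnemann).

The proof: by the generalized Hodge conjecture for `X` (`Pool.Agent.N994.FH`,
`Pool.Agent.N178.HX`) and nilpotence, `M_m` is a direct summand of a sum of motives
`h_(m - 2 c)(Y)(c)`, where `c` is the Hodge coniveau of `H^m(M)`.
-/

namespace Pool.Agent.Results.MP_d6e134_ag.PeriodFieldsWeights

open Module Pool.Agent.Y90 Pool.Agent.Z15.MU
open Pool.Agent.N178.BL (ChowTheory)
open Pool.Agent.N178.MU (Projectors IsChowKunneth HodgeZero)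

/-- **Murre's conjecture (B)** for direct summands `M = (X, p)` of the Chow motives of the abelian
varieties in the classes (a), (b), for every Chow–Künneth decomposition: (1) `CH_i(M_m) = 0` for
`m > d + i`; (2) `CH_i(M_m) = 0` for `m < 2 i` if `h^(s, t)(M) = 0` for all `s + t = m` with
`max (s, t) ≥ i + 2`. The cycles on `X` are the correspondences from the point `O` to `X`. -/
theorem result (C : ChowTheory) (K : Projectors C) (X : AV) (hX : IsGood X) (p : C.Co X X)
    (_hp : C.IsMotive p) (d : ℕ) (hd : ∀ s t : ℕ, d < s ∨ d < t → HodgeZero p s t)
    (P : ℕ → C.Co X X) (hP : IsChowKunneth p P) (O : AV) (hO : finrank ℚ O.H = 0) (i : ℤ) (m : ℕ)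
    (z : C.Co O X) (hz : C.IsDeg i z) :
    (d + i < m → C.o (P m) z = 0) ∧
    (m < 2 * i → (∀ s t : ℕ, s + t = m → i + 2 ≤ s ∨ i + 2 ≤ t → HodgeZero p s t) →
      C.o (P m) z = 0) :=
  main_B C K X hX p d hd P hP O hO i m z hz

end Pool.Agent.Results.MP_d6e134_ag.PeriodFieldsWeights
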