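import Pool.Agent.Z15P.Rel.Prod

/-!
# Cycles of small dimension on products with an arbitrary factor

Murre's conjecture (B) says that the projectors of a Chow-Künneth decomposition of a smooth projective
complex variety `X` act as zero on `CH^i(X)` unless their index `j` satisfies `i ≤ j ≤ 2i`. Let `V` be a
smooth projective variety given by forms with few mixed monomials, for example a smooth complete
intersection, and let `T` be an arbitrary smooth projective variety. We prove that the cycles of
dimension `l ≤ s` on `T × V` are linear combinations of products of subvarieties of `T` and linear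
subspaces of `V`. If (B) holds for `T` (for example if `T` is a surface) then this implies (B) for the
cycles of dimension `l ≤ s` on `T × V` and the product of the decompositions of `T` and `V`: the
projector `π_a × π_b` maps `W × L`, where `L` is a linear subspace of codimension `c` of `V`, to
`π_a W × π_b L`, and `π_b L = 0` unless `b = 2c`, since the Chow group of `V` in this dimension is
generated by `L`. If `π_a W ≠ 0` then `codim W ≤ a ≤ 2 codim W`, and `a + 2c` is between `i` and `2i`, where
`i = codim W + c` is the codimension of `W × L`. This last step is not formalised.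

Let `V` be given by forms `F a` of degrees `d a ≥ 2` over the algebraically closed field `k`, and put
`D = ∑ d a`. Assume that there are disjoint sets `0, …, s` of variables (blocks), and perhaps further
variables, such that each monomial of `F a` which is divisible by a variable of the block `i` has degree
at most `m` in the variables of the blocks `i + 1, …, s`. The block `0` has at least `(m + 1) ^ s D`
variables, the blocks `1, …, s` have more, and there are more than `D` variables in all. For `m = 0` there
are no mixed monomials: `F a = ∑ j, f_{a, j}(x_j, y)`, where `y` are the variables in no block, and it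
suffices that there are `D + 1` variables `x_j` for each `j ≥ 1`, `D` variables `x_0` and `D + 1` variables
in all.

Theorem: there are linearly independent vectors `Λ 0, …, Λ s` over `k` which span a linear subspace of
`V` such that for all fields `K ⊇ k`, all projective varieties `T` over `K` and all `l ≤ s`, the group
`CH_l(T × V_K) ⊗ ℚ` is generated by the cycles `W × ⟨Λ 0, …, Λ q⟩`, where `W` is a subvariety of dimension
`l - q` of `T`.

Cycles and rational equivalence are described in terms of function fields (`Pool.Agent.Z15P.Z15.H.cyc`
and the definitions of `Pool/Agent/Z15P/Rel/Defs.lean`, `Pool/Agent/Z15P/Rel/DefsP.lean`).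

The proof: the case that `T` is a point, over all infinite fields, is the main theorem of
`Pool/Agent/Z15P/Z15/W/All.lean`. It is applied over the function fields of the subvarieties `W` of `T`.
Rational equivalence on the generic fibre of `W × V → W` gives rational equivalence on `T × V` up to
cycles whose image in `T` has a smaller dimension.
-/

set_option autoImplicit false

namespace Pool.Agent.Results.MP_d6e134_ag.ProductsOfSmallDegree

open MvPolynomial Pool.Agent.Z15P.Rel

/-- `F a` are forms of degrees `d a ≥ 2`. The variable `i` belongs to the block `b i` if `b i ≤ s`, and to no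
block if `b i > s`. Each monomial of `F a` which is divisible by a variable of the block `b i` has degree
at most `m` in the variables of the blocks `b i + 1, …, s`. The block `0` has at least `(m + 1) ^ s ∑ d a`
variables, the blocks `1, …, s` have more, and there are more than `∑ d a` variables in all. -/
structure Blocks {k : Type} [Field k] {ν α : Type} [Fintype ν] [Fintype α]
    (F : α → MvPolynomial ν k) (d : α → ℕ) (b : ν → ℕ) (s m : ℕ) : Prop where
  hom : ∀ a, (F a).IsHomogeneous (d a)
  two_le : ∀ a, 2 ≤ d a
  mixed : ∀ a, ∀ n ∈ (F a).support, ∀ i, n i ≠ 0 → ∑ i' with b i < b i' ∧ b i' ≤ s, n i' ≤ m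
  first : (m + 1) ^ s * ∑ a, d a ≤ Nat.card {i // b i = 0}
  others : ∀ j, 1 ≤ j → j ≤ s → (m + 1) ^ s * ∑ a, d a < Nat.card {i // b i = j}
  total : ∑ a, d a < Nat.card ν

/-- `Λ 0, …, Λ s` is a basis of a linear subspace which is contained in the variety `F a = 0`. -/
def SpanIn {k : Type} [Field k] {ν α : Type} (s : ℕ) (Λ : ℕ → ν → k)
    (F : α → MvPolynomial ν k) : Prop :=
  (LinearIndependent k fun j : Fin (s + 1) => Λ j) ∧
    ∀ (a : α) (c : Fin (s + 1) → k), eval (fun i => ∑ j, c j * Λ j i) (F a) = 0

/-- Let the projective variety `V` be given by the forms `F a` over the algebraically closed field `k` as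
above. There are linearly independent vectors `Λ 0, …, Λ s` over `k` which span a linear subspace of
`V`, such that for every extension `K` of `k`, every projective variety `T`, given by forms `G c` over `K`,
and every `l ≤ s`, every cycle of dimension `l` on `T × V` is, up to torsion, rationally equivalent to a
linear combination of cycles `W × ⟨Λ 0, …, Λ q⟩`, where `W` are subvarieties of dimension `l - q` of `T`. -/
theorem result (k : Type) [Field k] [IsAlgClosed k] {ν α : Type} [Fintype ν] [Fintype α]
    [Nonempty α] (F : α → MvPolynomial ν k) (d : α → ℕ) (b : ν → ℕ) (s m : ℕ)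
    (h : Blocks F d b s m) :
    ∃ Λ : ℕ → ν → k, SpanIn s Λ F ∧ ∀ (K : Type) [Field K] [Algebra k K] (μ γ : Type) [Fintype μ]
      (G : γ → MvPolynomial μ K) (g : γ → ℕ), (∀ c, (G c).IsHomogeneous (g c)) →
        ∀ l : ℕ, l ≤ s → GeneratedByProducts K l G F Λ := by
  classical
  have hc : ∀ j, Nat.card {i // b i = j} = (Finset.univ.filter fun i => b i = j).card := fun j => by
    rw [Nat.card_eq_fintype_card, Fintype.card_subtype]
  have hs : Pool.Agent.Z15P.Z15.W.Sizes b s m (∑ a, d a) := by
    refine ⟨?_, ?_, fun j h1 h2 => ?_⟩
    · have h3 := h.total
      rw [Nat.card_eq_fintype_card] at h3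
      exact h3
    · rw [← hc]
      exact h.first
    · rw [← hc]
      exact h.others j h1 h2
  obtain ⟨Λ, h1, h2, h3⟩ := x_PROD k ν α F d b s m
    ⟨h.hom, fun a => lt_of_lt_of_le Nat.zero_lt_two (h.two_le a), h.mixed, hs⟩
    ⟨Classical.arbitrary α, h.two_le _⟩
  exact ⟨Λ, ⟨h1, h2⟩, h3⟩

end Pool.Agent.Results.MP_d6e134_ag.ProductsOfSmallDegree
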